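import Pool.Agent.Helper38.CCG.Second

/-!
# The non-isolated codes form one component as long as the ball of radius `t - 1` is small
-/

namespace Pool.Agent.Helper38.Kept.SmallBall

open Pool.Agent.Helper38.CCG

/-- Let `F` have `q` elements and suppose that `F^(n-1)` has less than `q^(k-1)` vectors of weight
less than `t`. Then any two non-isolated codes of `C_t(n,k)` are joined by a path of
`Lambda_t(n,k)`, and, for `t < k < n`, the graph is connected iff it has no isolated code. -/
theorem result (F : Type) [Field F] [Fintype F] (t k n : ℕ)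
    (hball : {x : Fin (n - 1) → F | wt x < t}.ncard < Fintype.card F ^ (k - 1)) :
    (∀ X Y : {C : Submodule F (Fin n → F) // IsCode t k C},
      ¬ Isolated t k X.1 → ¬ Isolated t k Y.1 → (Lam F t n k).Reachable X Y) ∧
    (t < k → k < n → ((Lam F t n k).Preconnected ↔
      ¬ ∃ C : Submodule F (Fin n → F), Isolated t k C)) := by
  refine ⟨fun X Y hX hY => nonisolated_reachable hball X Y hX hY, fun htk hkn => ⟨?_, ?_⟩⟩
  · rintro hpre ⟨C, hC⟩
    exact not_preconnected_of_isolated htk hkn C hC hpre
  · intro hno X Y
    exact nonisolated_reachable hball X Y (fun h => hno ⟨_, h⟩) (fun h => hno ⟨_, h⟩)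

end Pool.Agent.Helper38.Kept.SmallBall
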